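import Pool.Agent.K3h20.FB.Stm

/-!
# Irreducible CM fields: only trivial relations between the conjugates
-/

set_option autoImplicit false
set_option linter.unusedSectionVars false

open Polynomial NumberField

namespace Pool.Agent.K3h33.FB

open Pool.Agent.K3h20.FB

/-- roots of unity -/
def RU (x : ℂ) : Prop := ∃ s : ℕ, 0 < s ∧ x ^ s = 1

lemma RU.one : RU 1 := ⟨1, one_pos, one_pow 1⟩

lemma RU.mul {x y : ℂ} (hx : RU x) (hy : RU y) : RU (x * y) := by
  obtain ⟨s, hs, h⟩ := hx
  obtain ⟨t, ht, h'⟩ := hy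
  refine ⟨s * t, Nat.mul_pos hs ht, ?_⟩
  rw [mul_pow, pow_mul, h, one_pow, mul_comm s t, pow_mul, h', one_pow, one_mul]

lemma RU.zpow {x : ℂ} (hx : RU x) (n : ℤ) : RU (x ^ n) := by
  obtain ⟨s, hs, h⟩ := hx
  refine ⟨s, hs, ?_⟩
  rw [← zpow_natCast, ← zpow_mul, mul_comm, zpow_mul, zpow_natCast, h, one_zpow]

section

variable {E : Type} [Field E] [NumberField E]

/-- The odd functions which are multiplicative relations between the conjugates of `π`. -/
noncomputable def W (π : E) (hπ : π ≠ 0) : Submodule ℚ ((E →+* ℂ) → ℚ) where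
  carrier := {m | (∀ φ, m (ComplexEmbedding.conjugate φ) = -m φ) ∧
    ∃ (k : ℕ) (e : (E →+* ℂ) → ℤ), 0 < k ∧ (∀ φ, (e φ : ℚ) = k * m φ) ∧
      RU (∏ φ : E →+* ℂ, (φ π) ^ (e φ))}
  zero_mem' := ⟨by simp, 1, 0, one_pos, by simp, by simpa using RU.one⟩
  add_mem' := by
    rintro m m' ⟨h1, k, e, hk, he, hr⟩ ⟨h1', k', e', hk', he', hr'⟩
    refine ⟨fun φ => by rw [Pi.add_apply, Pi.add_apply, h1, h1']; ring, k * k',
      fun φ => k' * e φ + k * e' φ, Nat.mul_pos hk hk', fun φ => ?_, ?_⟩
    · push_cast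
      rw [he, he', Pi.add_apply]
      ring
    · have h2 : ∏ φ : E →+* ℂ, (φ π) ^ ((k' : ℤ) * e φ + k * e' φ) =
          (∏ φ : E →+* ℂ, (φ π) ^ (e φ)) ^ (k' : ℤ) * (∏ φ : E →+* ℂ, (φ π) ^ (e' φ)) ^ (k : ℤ) := by
        rw [← Finset.prod_zpow, ← Finset.prod_zpow, ← Finset.prod_mul_distrib]
        refine Finset.prod_congr rfl fun φ _ => ?_
        have hne : φ π ≠ 0 := by rw [Ne, map_eq_zero]; exact hπ
        rw [zpow_add₀ hne, mul_comm (k' : ℤ), zpow_mul, mul_comm (k : ℤ), zpow_mul]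
      rw [h2]
      exact (hr.zpow _).mul (hr'.zpow _)
  smul_mem' := by
    rintro c m ⟨h1, k, e, hk, he, hr⟩
    refine ⟨fun φ => by simp [h1], k * c.den, fun φ => c.num * e φ, Nat.mul_pos hk c.den_pos,
      fun φ => ?_, ?_⟩
    · have h3 : (c.num : ℚ) = c * c.den := (Rat.mul_den_eq_num c).symm
      push_cast
      rw [he, h3, Pi.smul_apply, smul_eq_mul]
      ring
    · have h2 : ∏ φ : E →+* ℂ, (φ π) ^ (c.num * e φ) = (∏ φ : E →+* ℂ, (φ π) ^ (e φ)) ^ c.num := by
        rw [← Finset.prod_zpow]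
        refine Finset.prod_congr rfl fun φ _ => ?_
        rw [mul_comm, zpow_mul]
      rw [h2]
      exact hr.zpow _

/-- Composition with an automorphism of `ℂ`. -/
def compEquiv (E : Type) [Field E] (g : ℂ ≃+* ℂ) : (E →+* ℂ) ≃ (E →+* ℂ) where
  toFun φ := (g : ℂ →+* ℂ).comp φ
  invFun φ := (g.symm : ℂ →+* ℂ).comp φ
  left_inv φ := by ext x; simp
  right_inv φ := by ext x; simp

lemma comp_conj [IsCMField E] (g : ℂ ≃+* ℂ) (φ : E →+* ℂ) :
    (g : ℂ →+* ℂ).comp (ComplexEmbedding.conjugate φ) =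
      ComplexEmbedding.conjugate ((g : ℂ →+* ℂ).comp φ) := by
  ext x
  have h1 := IsCMField.complexEmbedding_complexConj E φ x
  have h2 := IsCMField.complexEmbedding_complexConj E ((g : ℂ →+* ℂ).comp φ) x
  rw [ComplexEmbedding.conjugate_coe_eq, ← h2]
  change g (starRingEnd ℂ (φ x)) = g (φ _)
  rw [h1]

lemma W_stable [IsCMField E] (π : E) (hπ : π ≠ 0) (g : ℂ ≃+* ℂ) (m : (E →+* ℂ) → ℚ)
    (hm : m ∈ W π hπ) : (fun φ : E →+* ℂ => m ((g : ℂ →+* ℂ).comp φ)) ∈ W π hπ := by
  obtain ⟨h1, k, e, hk, he, s, hs, hr⟩ := hm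
  refine ⟨fun φ => ?_, k, fun φ => e ((g : ℂ →+* ℂ).comp φ), hk, fun φ => he _, s, hs, ?_⟩
  · beta_reduce
    rw [comp_conj, h1]
  · apply g.injective
    rw [map_pow, map_one, map_prod, ← hr]
    congr 1
    rw [← Equiv.prod_comp (compEquiv E g) (fun ψ => ψ π ^ e ψ)]
    refine Finset.prod_congr rfl fun φ _ => ?_
    rw [map_zpow₀]
    rfl

lemma exists_emb {π : E} (hint : IsIntegral ℤ π) {z : ℂ} (hz : Rt (minpoly ℤ π) z) :
    ∃ φ : E →+* ℂ, φ π = z := by
  have h1 : minpoly ℚ π = (minpoly ℤ π).map (algebraMap ℤ ℚ) :=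
    minpoly.isIntegrallyClosed_eq_field_fractions' ℚ hint
  have h2 : z ∈ (minpoly ℚ π).rootSet ℂ := by
    rw [Polynomial.mem_rootSet]
    refine ⟨minpoly.ne_zero hint.tower_top, ?_⟩
    rw [h1, Polynomial.aeval_map_algebraMap, Polynomial.aeval_def, ← Polynomial.eval_map]
    exact hz
  rw [← Algebra.IsAlgebraic.range_eval_eq_rootSet_minpoly] at h2
  obtain ⟨ψ, hψ⟩ := h2
  exact ⟨ψ.toRingHom, hψ⟩

lemma prod_sq_div (q : ℂ) (R : Multiset ℂ) :
    (R.map fun z => z ^ 2 / q).prod = R.prod ^ 2 / q ^ (Multiset.card R) := by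
  induction R using Multiset.induction_on with
  | empty => simp
  | cons z R ih =>
    rw [Multiset.map_cons, Multiset.prod_cons, ih, Multiset.prod_cons, Multiset.card_cons, mul_pow,
      pow_succ q, div_mul_div_comm, mul_comm q]

lemma norm_prod_sq (q : ℝ) (R : Multiset ℂ) (h : ∀ z ∈ R, ‖z‖ ^ 2 = q) :
    ‖R.prod‖ ^ 2 = q ^ (Multiset.card R) := by
  induction R using Multiset.induction_on with
  | empty => simp
  | cons z R ih =>
    rw [Multiset.prod_cons, Multiset.card_cons, norm_mul, mul_pow,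
      h z (Multiset.mem_cons_self z R), ih fun y hy => h y (Multiset.mem_cons_of_mem hy), pow_succ,
      mul_comm]

lemma card_aux {Q x : ℝ} (hQ : 1 < Q) {c m s : ℕ} (hs : 0 < s) (h1 : x ^ 2 = Q ^ c)
    (h2 : x ^ s = (Q ^ m) ^ s) : c = 2 * m := by
  have h3 : Q ^ (c * s) = Q ^ (2 * m * s) := by
    calc Q ^ (c * s) = (x ^ 2) ^ s := by rw [h1, ← pow_mul]
      _ = (x ^ s) ^ 2 := by ring
      _ = ((Q ^ m) ^ s) ^ 2 := by rw [h2]
      _ = Q ^ (2 * m * s) := by ring
  have h4 := pow_right_injective₀ (by linarith) hQ.ne' h3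
  exact Nat.eq_of_mul_eq_mul_right hs h4

lemma rt_emb (π : E) (φ : E →+* ℂ) : Rt (minpoly ℤ π) (φ π) := by
  have h1 : φ.comp (Int.castRingHom E) = Int.castRingHom ℂ := RingHom.ext_int _ _
  have h2 : (minpoly ℤ π).eval₂ (Int.castRingHom E) π = 0 := minpoly.aeval ℤ π
  rw [Rt, Polynomial.IsRoot, Polynomial.eval_map, ← h1, ← Polynomial.hom_eval₂, h2, map_zero]

/-- IRR: irreducible CM fields. -/
theorem t_IRR : S_IRR := by
  classical
  intro p a hp ha E _ _ _ hirr π hint hnorm
  have hq1 : (1 : ℝ) < (p : ℝ) ^ a := by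
    have h1 : (1 : ℝ) < p := by exact_mod_cast hp.one_lt
    exact one_lt_pow₀ h1 ha.ne'
  set q : ℂ := (p : ℂ) ^ a with hq
  have hq0 : q ≠ 0 := by
    rw [hq]
    exact pow_ne_zero _ (by exact_mod_cast hp.ne_zero)
  have hqn : ‖q‖ = (p : ℝ) ^ a := by rw [hq, norm_pow, Complex.norm_natCast]
  have hpos : ∀ φ : E →+* ℂ, φ π ≠ 0 := by
    intro φ h0
    have h1 := hnorm φ
    rw [h0, norm_zero] at h1
    have h2 : (0 : ℝ) ^ 2 = 0 := by norm_num
    rw [h2] at h1
    linarith
  have hπ : π ≠ 0 := by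
    obtain ⟨φ⟩ : Nonempty (E →+* ℂ) := inferInstance
    intro h0
    exact hpos φ (by rw [h0, map_zero])
  have hconj : ∀ φ : E →+* ℂ, ComplexEmbedding.conjugate φ π = q / φ π := by
    intro φ
    rw [ComplexEmbedding.conjugate_coe_eq, eq_div_iff (hpos φ), mul_comm, Complex.mul_conj,
      Complex.normSq_eq_norm_sq, hnorm φ, hq]
    push_cast
    rfl
  refine ⟨⟨minpoly.monic hint, fun z hz => ?_⟩, ?_⟩
  · obtain ⟨φ, rfl⟩ := exists_emb hint hz
    exact hnorm φ
  intro R hR m s hs hprod z hz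
  obtain ⟨P, hP, hz⟩ := hz
  rw [Set.mem_singleton_iff] at hP
  subst hP
  by_cases hss : ∃ φ0 : E →+* ℂ, SSg p a (φ0 π)
  · left
    obtain ⟨φ0, t, ht, h⟩ := hss
    obtain ⟨φ, rfl⟩ := exists_emb hint hz
    refine ⟨t, ht, ?_⟩
    have h1 : φ0 ((π ^ 2) ^ t) = φ0 (((p : E) ^ a) ^ t) := by
      simp only [map_pow, map_natCast]
      exact h
    have h2 := φ0.injective h1
    have h3 := congrArg φ h2
    simpa only [map_pow, map_natCast] using h3
  right
  -- the space of relations is zero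
  have hW : W π hπ = ⊥ := by
    rcases hirr (W π hπ) (fun m hm => hm.1) (W_stable π hπ) with h | h
    · exact h
    · exfalso
      obtain ⟨φ0⟩ : Nonempty (E →+* ℂ) := inferInstance
      have hne : ComplexEmbedding.conjugate φ0 ≠ φ0 := by
        intro h0
        exact IsTotallyComplex.complexEmbedding_not_isReal φ0 (ComplexEmbedding.isReal_iff.2 h0)
      have hinv : ∀ φ : E →+* ℂ, ComplexEmbedding.conjugate (ComplexEmbedding.conjugate φ) = φ :=
        ComplexEmbedding.involutive_conjugate E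
      obtain ⟨-, k, e, hk, he, s', hs', hr⟩ := h (fun φ => if φ = φ0 then 1 else
        if φ = ComplexEmbedding.conjugate φ0 then -1 else 0) (by
          intro φ
          by_cases h1 : φ = φ0
          · subst h1
            rw [if_neg hne, if_pos rfl, if_pos rfl]
          · by_cases h2 : φ = ComplexEmbedding.conjugate φ0
            · subst h2
              rw [hinv, if_pos rfl, if_neg hne, if_pos rfl, neg_neg]
            · rw [if_neg, if_neg, if_neg h1, if_neg h2, neg_zero]
              · intro h3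
                apply h1
                rw [← hinv φ, h3, hinv]
              · intro h3
                apply h2
                rw [← hinv φ, h3])
      beta_reduce at he
      have hprod2 : ∏ φ : E →+* ℂ, (φ π) ^ (e φ) =
          (φ0 π) ^ (k : ℤ) * (ComplexEmbedding.conjugate φ0 π) ^ (-(k : ℤ)) := by
        have e0 : e φ0 = k := by
          have h1 := he φ0
          rw [if_pos rfl, mul_one] at h1
          exact_mod_cast h1
        have e1 : e (ComplexEmbedding.conjugate φ0) = -k := by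
          have h1 := he (ComplexEmbedding.conjugate φ0)
          rw [if_neg hne, if_pos rfl, mul_neg_one] at h1
          exact_mod_cast h1
        have e2 : ∀ φ, φ ≠ φ0 → φ ≠ ComplexEmbedding.conjugate φ0 → e φ = 0 := by
          intro φ h1 h2
          have h3 := he φ
          rw [if_neg h1, if_neg h2, mul_zero] at h3
          exact_mod_cast h3
        rw [Finset.prod_eq_mul φ0 (ComplexEmbedding.conjugate φ0) hne.symm, e0, e1]
        · intro φ _ h1
          rw [e2 φ h1.1 h1.2, zpow_zero]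
        · intro h1
          exact absurd (Finset.mem_univ _) h1
        · intro h1
          exact absurd (Finset.mem_univ _) h1
      have h4 : (φ0 π) ^ (k : ℤ) * (ComplexEmbedding.conjugate φ0 π) ^ (-(k : ℤ)) =
          ((φ0 π) ^ 2 / q) ^ k := by
        rw [hconj, zpow_neg, zpow_natCast, zpow_natCast, div_pow, inv_div, ← mul_div_assoc,
          ← mul_pow, ← div_pow, ← sq]
      rw [hprod2, h4, ← pow_mul, div_pow, div_eq_one_iff_eq (pow_ne_zero _ hq0)] at hr
      exact hss ⟨φ0, k * s', Nat.mul_pos hk hs', hr⟩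
  -- embeddings which represent the roots
  have hrepex : ∀ z : ℂ, ∃ φ : E →+* ℂ, Rt (minpoly ℤ π) z → φ π = z := by
    intro z
    by_cases hz : Rt (minpoly ℤ π) z
    · obtain ⟨φ, hφ⟩ := exists_emb hint hz
      exact ⟨φ, fun _ => hφ⟩
    · obtain ⟨φ⟩ : Nonempty (E →+* ℂ) := inferInstance
      exact ⟨φ, fun h => absurd h hz⟩
  choose rep hrep using hrepex
  have hRroot : ∀ z ∈ R, Rt (minpoly ℤ π) z := by
    intro z hz
    obtain ⟨P, hP, h⟩ := hR z hz
    rw [Set.mem_singleton_iff] at hP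
    rwa [hP] at h
  set m1 : (E →+* ℂ) → ℕ := fun φ => if φ = rep (φ π) then R.count (φ π) else 0 with hm1
  have hprodm : ∀ g : ℂ → ℂ, ∏ φ : E →+* ℂ, g (φ π) ^ m1 φ = (R.map g).prod := by
    intro g
    rw [Finset.prod_multiset_map_count]
    symm
    refine Finset.prod_of_injOn rep ?_ ?_ ?_ ?_
    · intro z hz z' hz' h
      rw [Finset.mem_coe, Multiset.mem_toFinset] at hz hz'
      rw [← hrep z (hRroot z hz), h, hrep z' (hRroot z' hz')]
    · intro z _
      simp
    · intro φ _ hφ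
      have h1 : m1 φ = 0 := by
        simp only [hm1]
        by_cases h2 : φ = rep (φ π)
        · rw [if_pos h2, Multiset.count_eq_zero]
          intro h3
          apply hφ
          exact ⟨φ π, by rw [Finset.mem_coe, Multiset.mem_toFinset]; exact h3, h2.symm⟩
        · rw [if_neg h2]
      rw [h1, pow_zero]
    · intro z hz
      rw [Multiset.mem_toFinset] at hz
      have h1 := hrep z (hRroot z hz)
      have h2 : m1 (rep z) = R.count z := by
        simp only [hm1]
        rw [h1, if_pos rfl]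
      rw [h1, h2]
  -- the number of the roots
  have hcard : Multiset.card R = 2 * m := by
    have h1 := norm_prod_sq ((p : ℝ) ^ a) R (fun z hz => by
      obtain ⟨φ, rfl⟩ := exists_emb hint (hRroot z hz)
      exact hnorm φ)
    have h2 := congrArg norm hprod
    simp only [norm_pow, Complex.norm_natCast] at h2
    exact card_aux hq1 hs h1 h2
  have hcc : ∀ φ : E →+* ℂ, ComplexEmbedding.conjugate (ComplexEmbedding.conjugate φ) = φ :=
    ComplexEmbedding.involutive_conjugate E
  have hm2 : (fun φ : E →+* ℂ => ((m1 φ : ℚ) - m1 (ComplexEmbedding.conjugate φ))) ∈ W π hπ := by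
    refine ⟨fun φ => ?_, 1, fun φ => (m1 φ : ℤ) - m1 (ComplexEmbedding.conjugate φ), one_pos,
      fun φ => by push_cast; ring, s, hs, ?_⟩
    · beta_reduce
      rw [hcc]
      ring
    · have h1 : ∏ φ : E →+* ℂ, (φ π) ^ ((m1 φ : ℤ) - m1 (ComplexEmbedding.conjugate φ)) =
          ∏ φ : E →+* ℂ, ((φ π) ^ 2 / q) ^ m1 φ := by
        have e1 : ∏ φ : E →+* ℂ, (φ π) ^ m1 (ComplexEmbedding.conjugate φ) =
            ∏ φ : E →+* ℂ, (ComplexEmbedding.conjugate φ π) ^ m1 φ := by
          rw [← Equiv.prod_comp (Function.Involutive.toPerm ComplexEmbedding.conjugate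
            (ComplexEmbedding.involutive_conjugate E))
            (fun φ : E →+* ℂ => (φ π) ^ m1 (ComplexEmbedding.conjugate φ))]
          refine Finset.prod_congr rfl fun φ _ => ?_
          change (ComplexEmbedding.conjugate φ π) ^
            m1 (ComplexEmbedding.conjugate (ComplexEmbedding.conjugate φ)) = _
          rw [hcc]
        have e2 : ∀ φ : E →+* ℂ, (φ π) ^ ((m1 φ : ℤ) - m1 (ComplexEmbedding.conjugate φ)) =
            (φ π) ^ m1 φ / (φ π) ^ m1 (ComplexEmbedding.conjugate φ) := by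
          intro φ
          rw [zpow_sub₀ (hpos φ), zpow_natCast, zpow_natCast]
        rw [Finset.prod_congr rfl fun φ _ => e2 φ, Finset.prod_div_distrib, e1,
          ← Finset.prod_div_distrib]
        refine Finset.prod_congr rfl fun φ _ => ?_
        rw [hconj, ← div_pow, div_div_eq_mul_div, ← sq]
      rw [h1, hprodm (fun z => z ^ 2 / q), prod_sq_div, hcard, div_pow, ← pow_mul, mul_comm 2 s,
        pow_mul, hprod, div_eq_one_iff_eq (pow_ne_zero _ (pow_ne_zero _ hq0))]
      ring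
  rw [hW, Submodule.mem_bot] at hm2
  have heq : ∀ φ : E →+* ℂ, m1 φ = m1 (ComplexEmbedding.conjugate φ) := by
    intro φ
    have h1 := congrFun hm2 φ
    have h2 : (m1 φ : ℚ) - m1 (ComplexEmbedding.conjugate φ) = 0 := h1
    exact_mod_cast sub_eq_zero.1 h2
  -- the end
  have hz' : Rt (minpoly ℤ π) (q / z) := by
    have h1 := rt_emb π (ComplexEmbedding.conjugate (rep z))
    rwa [hconj, hrep z hz] at h1
  have c1 : m1 (rep z) = R.count z := by
    simp only [hm1]
    rw [hrep z hz, if_pos rfl]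
  have c2 : m1 (rep (q / z)) = R.count (q / z) := by
    simp only [hm1]
    rw [hrep _ hz', if_pos rfl]
  have c3 : ComplexEmbedding.conjugate (rep z) π = q / z := by rw [hconj, hrep z hz]
  have hz0 : z ≠ 0 := by rw [← hrep z hz]; exact hpos _
  have c4 : ComplexEmbedding.conjugate (rep (q / z)) π = z := by
    rw [hconj, hrep _ hz']
    field_simp
  by_cases h5 : ComplexEmbedding.conjugate (rep z) = rep (q / z)
  · rw [← c1, heq, h5, c2]
  · have c5 : m1 (ComplexEmbedding.conjugate (rep z)) = 0 := by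
      simp only [hm1]
      rw [c3, if_neg h5]
    have c6 : m1 (ComplexEmbedding.conjugate (rep (q / z))) = 0 := by
      simp only [hm1]
      rw [c4, if_neg]
      intro h6
      apply h5
      rw [← h6, hcc]
    rw [← c1, ← c2, heq, c5, heq (rep (q / z)), c6]

end

end Pool.Agent.K3h33.FB
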