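import Pool.Agent.K3h20.FB.Stm2
import Pool.Agent.K3h33.FB.Irr

/-!
# Irreducible CM fields of different degrees are independent
-/

set_option autoImplicit false
set_option linter.unusedSectionVars false

open Polynomial NumberField

namespace Pool.Agent.K3h33.FB

open Pool.Agent.K3h20.FB

section

variable {X : Type} [Fintype X] (inv : X → X)

/-- The functions which change their sign under `inv`. -/
def Od : Submodule ℚ (X → ℚ) where
  carrier := {m | ∀ x, m (inv x) = -m x}
  zero_mem' := by intro x; simp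
  add_mem' := by
    intro m m' h h' x
    rw [Pi.add_apply, Pi.add_apply, h, h']
    ring
  smul_mem' := by
    intro c m h x
    rw [Pi.smul_apply, Pi.smul_apply, h, smul_neg]

lemma mem_Od {m : X → ℚ} : m ∈ Od inv ↔ ∀ x, m (inv x) = -m x := Iff.rfl

lemma finrank_Od (hinv : ∀ x, inv (inv x) = x) (hne : ∀ x, inv x ≠ x) :
    2 * Module.finrank ℚ (Od inv) = Fintype.card X := by
  classical
  let e := Fintype.equivFin X
  let s : X → ℚ := fun x => if e x < e (inv x) then 1 else -1
  have hs1 : ∀ x, s x * s x = 1 := by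
    intro x
    simp only [s]
    split_ifs <;> norm_num
  have hs2 : ∀ x, s (inv x) = -s x := by
    intro x
    simp only [s]
    rw [hinv]
    have h1 : e x ≠ e (inv x) := fun h => hne x (e.injective h).symm
    rcases lt_or_gt_of_ne h1 with h | h
    · rw [if_neg (not_lt.2 h.le), if_pos h]
    · rw [if_pos h, if_neg (not_lt.2 h.le), neg_neg]
  let L : (X → ℚ) ≃ₗ[ℚ] (Od inv × Od inv) :=
    { toFun := fun m => (⟨fun x => m x - m (inv x), by intro x; beta_reduce; rw [hinv]; ring⟩,
        ⟨fun x => s x * (m x + m (inv x)), by intro x; beta_reduce; rw [hinv, hs2]; ring⟩)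
      map_add' := by
        intro m m'
        refine Prod.ext (Subtype.ext (funext fun x => ?_)) (Subtype.ext (funext fun x => ?_))
        · change (m x + m' x) - (m (inv x) + m' (inv x)) = (m x - m (inv x)) + (m' x - m' (inv x))
          ring
        · change s x * ((m x + m' x) + (m (inv x) + m' (inv x))) =
            s x * (m x + m (inv x)) + s x * (m' x + m' (inv x))
          ring
      map_smul' := by
        intro c m
        refine Prod.ext (Subtype.ext (funext fun x => ?_)) (Subtype.ext (funext fun x => ?_))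
        · change c * m x - c * m (inv x) = c * (m x - m (inv x))
          ring
        · change s x * (c * m x + c * m (inv x)) = c * (s x * (m x + m (inv x)))
          ring
      invFun := fun ab => fun x => ((ab.1 : X → ℚ) x + s x * (ab.2 : X → ℚ) x) / 2
      left_inv := by
        intro m
        funext x
        change ((m x - m (inv x)) + s x * (s x * (m x + m (inv x)))) / 2 = m x
        linear_combination ((m x + m (inv x)) / 2) * hs1 x
      right_inv := by
        rintro ⟨⟨a, ha⟩, ⟨b, hb⟩⟩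
        refine Prod.ext (Subtype.ext (funext fun x => ?_)) (Subtype.ext (funext fun x => ?_))
        · change (a x + s x * b x) / 2 - (a (inv x) + s (inv x) * b (inv x)) / 2 = a x
          rw [ha x, hb x, hs2]
          ring
        · change s x * ((a x + s x * b x) / 2 + (a (inv x) + s (inv x) * b (inv x)) / 2) = b x
          rw [ha x, hb x, hs2]
          linear_combination b x * hs1 x }
  have h1 := L.finrank_eq
  rw [Module.finrank_prod, Module.finrank_fintype_fun_eq_card] at h1
  omega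

end

section

variable {E E' : Type} [Field E] [NumberField E] [Field E'] [NumberField E']

lemma finrank_odd (E : Type) [Field E] [NumberField E] [IsCMField E] :
    2 * Module.finrank ℚ (Od (ComplexEmbedding.conjugate : (E →+* ℂ) → (E →+* ℂ))) =
      Module.finrank ℚ E := by
  rw [finrank_Od _ (ComplexEmbedding.involutive_conjugate E), Embeddings.card]
  intro φ h0
  exact IsTotallyComplex.complexEmbedding_not_isReal φ (ComplexEmbedding.isReal_iff.2 h0)

/-- The map given by a matrix. -/
noncomputable def TT (A : ℂ → ℂ → ℚ) (π : E) (π' : E') :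
    ((E' →+* ℂ) → ℚ) →ₗ[ℚ] ((E →+* ℂ) → ℚ) where
  toFun m φ := ∑ ψ : E' →+* ℂ, A (φ π) (ψ π') * m ψ
  map_add' m m' := by
    funext φ
    simp only [Pi.add_apply, mul_add, Finset.sum_add_distrib]
  map_smul' c m := by
    funext φ
    simp only [Pi.smul_apply, smul_eq_mul, RingHom.id_apply, Finset.mul_sum]
    refine Finset.sum_congr rfl fun ψ _ => ?_
    ring

lemma TT_apply (A : ℂ → ℂ → ℚ) (π : E) (π' : E') (m : (E' →+* ℂ) → ℚ) (φ : E →+* ℂ) :
    TT A π π' m φ = ∑ ψ : E' →+* ℂ, A (φ π) (ψ π') * m ψ := rfl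

lemma TT_comp (A : ℂ → ℂ → ℚ) (hA : ∀ (σ : ℂ ≃+* ℂ) (z w : ℂ), A (σ z) (σ w) = A z w)
    (π : E) (π' : E') (m : (E' →+* ℂ) → ℚ) (g : ℂ ≃+* ℂ) (φ : E →+* ℂ) :
    TT A π π' (fun ψ => m ((g : ℂ →+* ℂ).comp ψ)) φ = TT A π π' m ((g : ℂ →+* ℂ).comp φ) := by
  rw [TT_apply, TT_apply, ← Equiv.sum_comp (compEquiv E' g) (fun ψ : E' →+* ℂ =>
    A (((g : ℂ →+* ℂ).comp φ) π) (ψ π') * m ψ)]
  refine Finset.sum_congr rfl fun ψ _ => ?_
  have h1 : A (((g : ℂ →+* ℂ).comp φ) π) ((compEquiv E' g ψ) π') = A (φ π) (ψ π') :=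
    hA g (φ π) (ψ π')
  rw [h1]
  rfl

lemma conj_val {p a : ℕ} (hp : p.Prime) {π : E} (h : ∀ φ : E →+* ℂ, ‖φ π‖ ^ 2 = (p : ℝ) ^ a)
    (φ : E →+* ℂ) : ComplexEmbedding.conjugate φ π = (p : ℂ) ^ a / φ π := by
  have h3 : φ π * (starRingEnd ℂ) (φ π) = (p : ℂ) ^ a := by
    rw [Complex.mul_conj, Complex.normSq_eq_norm_sq, h φ]
    push_cast
    rfl
  have h4 : φ π ≠ 0 := by
    intro h0
    rw [h0, zero_mul] at h3
    have h5 : (p : ℂ) ≠ 0 := by exact_mod_cast hp.ne_zero
    exact pow_ne_zero a h5 h3.symm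
  rw [ComplexEmbedding.conjugate_coe_eq, eq_div_iff h4, mul_comm]
  exact h3

/-- DDG: irreducible CM fields of different degrees are independent -/
theorem t_DDG : S_DDG := by
  classical
  intro p a hp ha E E' _ _ _ _ _ _ hE hE' hdeg π π' hint hint' hn hn' A hA hodd z w hz hw
  obtain ⟨φ, rfl⟩ := exists_emb hint hz
  obtain ⟨ψ, rfl⟩ := exists_emb hint' hw
  right
  right
  have hcc : ∀ φ : E' →+* ℂ, ComplexEmbedding.conjugate (ComplexEmbedding.conjugate φ) = φ :=
    ComplexEmbedding.involutive_conjugate E'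
  have hne : ∀ ψ : E' →+* ℂ, ComplexEmbedding.conjugate ψ ≠ ψ := by
    intro ψ h0
    exact IsTotallyComplex.complexEmbedding_not_isReal ψ (ComplexEmbedding.isReal_iff.2 h0)
  have hA1 : ∀ (φ : E →+* ℂ) (ψ : E' →+* ℂ),
      A (ComplexEmbedding.conjugate φ π) (ψ π') = -A (φ π) (ψ π') := by
    intro φ ψ
    rw [conj_val hp hn]
    exact (hodd _ _ (rt_emb π φ) (rt_emb π' ψ)).1
  have hA2 : ∀ (φ : E →+* ℂ) (ψ : E' →+* ℂ),
      A (φ π) (ComplexEmbedding.conjugate ψ π') = -A (φ π) (ψ π') := by
    intro φ ψ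
    rw [conj_val hp hn']
    exact (hodd _ _ (rt_emb π φ) (rt_emb π' ψ)).2
  -- the odd function of an embedding
  set m0 : (E' →+* ℂ) → ℚ := fun χ => (if χ = ψ then 1 else 0) -
    (if χ = ComplexEmbedding.conjugate ψ then 1 else 0) with hm0
  have hm0odd : ∀ χ, m0 (ComplexEmbedding.conjugate χ) = -m0 χ := by
    intro χ
    have e1 : ComplexEmbedding.conjugate χ = ψ ↔ χ = ComplexEmbedding.conjugate ψ :=
      ⟨fun h => by rw [← h, hcc], fun h => by rw [h, hcc]⟩
    have e2 : ComplexEmbedding.conjugate χ = ComplexEmbedding.conjugate ψ ↔ χ = ψ :=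
      ⟨fun h => by rw [← hcc χ, h, hcc], fun h => by rw [h]⟩
    simp only [hm0, e1, e2]
    ring
  have hm0ne : m0 ≠ 0 := by
    intro h0
    have h1 := congrFun h0 ψ
    simp only [hm0, if_neg (hne ψ).symm, Pi.zero_apply, sub_zero] at h1
    exact one_ne_zero h1
  have hcomp : ∀ (g : ℂ ≃+* ℂ) (m : (E' →+* ℂ) → ℚ),
      (∀ χ, m (ComplexEmbedding.conjugate χ) = -m χ) →
      ∀ χ, (fun ψ : E' →+* ℂ => m ((g : ℂ →+* ℂ).comp ψ)) (ComplexEmbedding.conjugate χ) =
        -(fun ψ : E' →+* ℂ => m ((g : ℂ →+* ℂ).comp ψ)) χ := by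
    intro g m hm χ
    beta_reduce
    rw [comp_conj, hm]
  set O : Submodule ℚ ((E →+* ℂ) → ℚ) := Od ComplexEmbedding.conjugate with hO
  set O' : Submodule ℚ ((E' →+* ℂ) → ℚ) := Od ComplexEmbedding.conjugate with hO'
  set T := TT A π π' with hT
  rcases hE' (O' ⊓ LinearMap.ker T) (fun m hm => hm.1) (by
    intro g m hm
    refine ⟨hcomp g m hm.1, ?_⟩
    rw [SetLike.mem_coe, LinearMap.mem_ker]
    funext φ
    have h1 := TT_comp A hA π π' m g φ
    have h2 : T m = 0 := hm.2
    rw [← hT] at h1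
    rw [h1, h2]
    rfl) with hker | hker
  · -- the map is injective on the odd functions
    exfalso
    have hinj : Function.Injective (T.domRestrict O') := by
      rw [← LinearMap.ker_eq_bot, eq_bot_iff]
      intro m hm
      have h1 : (m : (E' →+* ℂ) → ℚ) ∈ O' ⊓ LinearMap.ker T := ⟨m.2, hm⟩
      rw [hker, Submodule.mem_bot] at h1
      rw [Submodule.mem_bot]
      exact Subtype.ext h1
    have hmapO : ∀ m ∈ O'.map T, m ∈ O := by
      rintro _ ⟨m, -, rfl⟩ φ
      rw [hT, TT_apply, TT_apply, ← Finset.sum_neg_distrib]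
      refine Finset.sum_congr rfl fun ψ _ => ?_
      rw [hA1, neg_mul]
    rcases hE (O'.map T) hmapO (by
      rintro g _ ⟨m, hm, rfl⟩
      refine ⟨fun ψ => m ((g : ℂ →+* ℂ).comp ψ), hcomp g m hm, ?_⟩
      funext φ
      exact TT_comp A hA π π' m g φ) with hmap | hmap
    · have h1 : T m0 ∈ O'.map T := ⟨m0, hm0odd, rfl⟩
      rw [hmap, Submodule.mem_bot] at h1
      have h2 : m0 ∈ O' ⊓ LinearMap.ker T := ⟨hm0odd, h1⟩
      rw [hker, Submodule.mem_bot] at h2
      exact hm0ne h2
    · have heq : O'.map T = O := le_antisymm hmapO fun m hm => hmap m hm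
      have h1 : Module.finrank ℚ (O'.map T) = Module.finrank ℚ O' := by
        have h2 := LinearMap.finrank_range_of_inj hinj
        rwa [LinearMap.range_domRestrict] at h2
      have h3 := finrank_odd E
      have h4 := finrank_odd E'
      rw [heq] at h1
      apply hdeg
      rw [← h3, ← h4, ← hO, ← hO', h1]
  · -- the map vanishes on the odd functions
    have h1 := (hker m0 hm0odd).2
    have h2 : T m0 φ = 0 := by
      have h3 : T m0 = 0 := h1
      rw [h3]
      rfl
    rw [hT, TT_apply] at h2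
    have h3 : ∑ χ : E' →+* ℂ, A (φ π) (χ π') * m0 χ =
        A (φ π) (ψ π') - A (φ π) (ComplexEmbedding.conjugate ψ π') := by
      simp only [hm0, mul_sub, Finset.sum_sub_distrib, mul_ite, mul_one, mul_zero]
      rw [Finset.sum_ite_eq', Finset.sum_ite_eq', if_pos (Finset.mem_univ _),
        if_pos (Finset.mem_univ _)]
    rw [h3, hA2] at h2
    linarith

end

end Pool.Agent.K3h33.FB
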